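import Mathlib

/-!
# Labelled rectangular paths and their statistics (problem MP_0e7911_co)

An `m × n` rectangular path is given by the abscissas `x 0 ≤ x 1 ≤ ... ≤ x (n-1)` of its `n`
north steps; the `i`-th north step (`i = 0, ..., n-1`) goes from `(x i, i)` to `(x i, i+1)`,
and `x i ≤ m - 1` because the last step is an east step.  Steps are numbered from `0` here:
the `i-1` of the text is `i`.  A labelling gives each north step a label in
`{0, ..., N-1}`, strictly increasing upwards along each vertical run.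
-/

set_option autoImplicit false

namespace Pool.Agent.Lib.MP_0e7911_co_rect

open Finset

/-- The `q`-integer `[k]_q = 1 + q + ... + q ^ (k-1)`. -/
def qint {K : Type*} [Semiring K] (q : K) (k : ℕ) : K := ∑ i ∈ range k, q ^ i

/-- The level `a_i = m i / n - x_i` of the `i`-th north step. -/
def level {m n : ℕ} (x : Fin n → Fin m) (i : Fin n) : ℚ :=
  (m : ℚ) * ((i : ℕ) : ℚ) / (n : ℚ) - ((x i : ℕ) : ℚ)

/-- The shift `s = - min_i a_i`. -/
def shift {m n : ℕ} [NeZero n] (x : Fin n → Fin m) : ℚ :=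
  -univ.inf' univ_nonempty (level x)

/-- `area = ∑_i ⌊a_i + s⌋`. -/
def area {m n : ℕ} [NeZero n] (x : Fin n → Fin m) : ℤ := ∑ i, ⌊level x i + shift x⌋

/-- The number of lowest touches: the number of `i` with `a_i + s = 0`. -/
def touches {m n : ℕ} [NeZero n] (x : Fin n → Fin m) : ℕ :=
  (univ.filter (fun i : Fin n => level x i + shift x = 0)).card

/-- `i` attacks `j`: `(a_i, i) < (a_j, j) < (a_i + m / n, i)` lexicographically. -/
def Attacks {m n : ℕ} (x : Fin n → Fin m) (i j : Fin n) : Prop :=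
  toLex (level x i, i) < toLex (level x j, j) ∧
    toLex (level x j, j) < toLex (level x i + (m : ℚ) / (n : ℚ), i)

instance {m n : ℕ} (x : Fin n → Fin m) (i j : Fin n) : Decidable (Attacks x i j) :=
  inferInstanceAs (Decidable (_ ∧ _))

/-- `tdinv = #{(i, j) : w_i < w_j, i attacks j}`. -/
def tdinv {m n N : ℕ} (x : Fin n → Fin m) (w : Fin n → Fin N) : ℕ :=
  (univ.filter (fun p : Fin n × Fin n => w p.1 < w p.2 ∧ Attacks x p.1 p.2)).card

/-- The cells of the rectangle above (that is, to the left of) the path: the cell `(i, c)` is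
the unit square with corners `(c, i)` and `(c+1, i+1)`. -/
def cells {m n : ℕ} (x : Fin n → Fin m) : Finset (Fin n × Fin m) :=
  univ.filter (fun c => c.2 < x c.1)

/-- `α`: the number of cells strictly to the right of the cell `c` (in its row). -/
def right {m n : ℕ} (x : Fin n → Fin m) (c : Fin n × Fin m) : ℕ :=
  ((cells x).filter (fun c' => c'.1 = c.1 ∧ c.2 < c'.2)).card

/-- `β`: the number of cells strictly below the cell `c` (in its column). -/
def below {m n : ℕ} (x : Fin n → Fin m) (c : Fin n × Fin m) : ℕ :=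
  ((cells x).filter (fun c' => c'.2 = c.2 ∧ c'.1 < c.1)).card

/-- `α / β` with `α / 0 = +∞` for `α > 0` and `0 / 0 = 0`. -/
def ratio (α β : ℕ) : WithTop ℚ := if β = 0 ∧ 0 < α then ⊤ else (((α : ℚ) / (β : ℚ) : ℚ) : WithTop ℚ)

/-- `cdinv = #{c : (α+1)/(β+1) ≤ m/n < α/β} - #{c : α/β ≤ m/n < (α+1)/(β+1)}`. -/
def cdinv {m n : ℕ} (x : Fin n → Fin m) : ℤ :=
  (((cells x).filter (fun c => ratio (right x c + 1) (below x c + 1) ≤ (((m : ℚ) / (n : ℚ) : ℚ) : WithTop ℚ) ∧
      (((m : ℚ) / (n : ℚ) : ℚ) : WithTop ℚ) < ratio (right x c) (below x c))).card : ℤ) -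
  (((cells x).filter (fun c => ratio (right x c) (below x c) ≤ (((m : ℚ) / (n : ℚ) : ℚ) : WithTop ℚ) ∧
      (((m : ℚ) / (n : ℚ) : ℚ) : WithTop ℚ) < ratio (right x c + 1) (below x c + 1))).card : ℤ)

/-- `dinv = tdinv + cdinv + #{i : a_i < 0}`. -/
def dinv {m n N : ℕ} (x : Fin n → Fin m) (w : Fin n → Fin N) : ℤ :=
  (tdinv x w : ℤ) + cdinv x + ((univ.filter (fun i : Fin n => level x i < 0)).card : ℤ)

/-- Labelled `m × n` rectangular paths with labels in `{0, ..., N-1}`. -/
def LRP (m n N : ℕ) : Finset ((Fin n → Fin m) × (Fin n → Fin N)) :=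
  univ.filter (fun p => Monotone p.1 ∧ ∀ i j, i < j → p.1 i = p.1 j → p.2 i < p.2 j)

/-- The path stays weakly above the line `m y = n x`. -/
def IsDyck {m n : ℕ} (x : Fin n → Fin m) : Prop := ∀ i : Fin n, n * (x i : ℕ) ≤ m * (i : ℕ)

instance {m n : ℕ} (x : Fin n → Fin m) : Decidable (IsDyck x) :=
  inferInstanceAs (Decidable (∀ _, _))

/-- Labelled rectangular Dyck paths. -/
def LRD (m n N : ℕ) : Finset ((Fin n → Fin m) × (Fin n → Fin N)) :=
  (LRP m n N).filter (fun p => IsDyck p.1)

/-- The weight `q ^ dinv t ^ area x ^ π`. -/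
noncomputable def wt {K : Type*} [Field K] (q t : K) {m n N : ℕ} [NeZero n]
    (p : (Fin n → Fin m) × (Fin n → Fin N)) : MvPolynomial (Fin N) K :=
  MvPolynomial.C (q ^ dinv p.1 p.2 * t ^ area p.1) * ∏ i, MvPolynomial.X (p.2 i)

/-- The multiset of the pairs (shifted level, label) of a labelled path. -/
def prof {m n N : ℕ} [NeZero n] (p : (Fin n → Fin m) × (Fin n → Fin N)) : Multiset (ℚ × Fin N) :=
  univ.val.map (fun i => (level p.1 i + shift p.1, p.2 i))

end Pool.Agent.Lib.MP_0e7911_co_rect
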