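import Pool.Agent.Lib.MP_0e7911_co_rect.Transfer

/-!
# The generating function identities
-/

set_option autoImplicit false

namespace Pool.Agent.Lib.MP_0e7911_co_rect

open Finset

variable {K : Type*} [Field K] {m n N : ℕ} [NeZero m] [NeZero n]

/-- the part of the weight which depends only on the profile -/
noncomputable def pw (t : K) (f : Multiset (ℚ × Fin N) → K) (M : Multiset (ℚ × Fin N)) :
    MvPolynomial (Fin N) K :=
  MvPolynomial.C (f M * t ^ (M.map (fun z => ⌊z.1⌋)).sum) *
    (M.map (fun z => (MvPolynomial.X z.2 : MvPolynomial (Fin N) K))).prod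

theorem wt_eq (q t : K) (f : Multiset (ℚ × Fin N) → K)
    (p : (Fin n → Fin m) × (Fin n → Fin N)) :
    MvPolynomial.C (f (prof p)) * wt q t p = MvPolynomial.C (q ^ dinv p.1 p.2) * pw t f (prof p) := by
  have h1 : ((prof p).map (fun z => (MvPolynomial.X z.2 : MvPolynomial (Fin N) K))).prod =
      ∏ i, MvPolynomial.X (p.2 i) := by
    unfold prof
    rw [Multiset.map_map]
    rfl
  unfold wt pw
  rw [area_prof, h1, map_mul, map_mul]
  ring

theorem fiber_identity (q t : K) (hq : q ≠ 0) (f : Multiset (ℚ × Fin N) → K)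
    (M : Multiset (ℚ × Fin N)) :
    MvPolynomial.C (qint q (M.countP (fun z => z.1 = 0))) *
      ∑ p ∈ (LRP m n N).filter (fun p => prof p = M), MvPolynomial.C (f (prof p)) * wt q t p =
    MvPolynomial.C (qint q m) *
      ∑ p ∈ (LRD m n N).filter (fun p => prof p = M), MvPolynomial.C (f (prof p)) * wt q t p := by
  have h1 : ∀ s : Finset ((Fin n → Fin m) × (Fin n → Fin N)),
      ∑ p ∈ s.filter (fun p => prof p = M), MvPolynomial.C (f (prof p)) * wt q t p =
        MvPolynomial.C (∑ p ∈ s.filter (fun p => prof p = M), q ^ dinv p.1 p.2) * pw t f M := by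
    intro s
    rw [map_sum, Finset.sum_mul]
    refine sum_congr rfl fun p hp => ?_
    rw [wt_eq, (mem_filter.1 hp).2]
  rw [h1, h1, ← mul_assoc, ← mul_assoc, ← map_mul, ← map_mul, refined q hq M]

/-- The identity for the paths with `k` lowest touches. -/
theorem touch_identity (q t : K) (hq : q ≠ 0) (f : Multiset (ℚ × Fin N) → K) (k : ℕ) :
    MvPolynomial.C (qint q k) *
      ∑ p ∈ (LRP m n N).filter (fun p => touches p.1 = k),
        MvPolynomial.C (f (prof p)) * wt q t p =
    MvPolynomial.C (qint q m) *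
      ∑ p ∈ (LRD m n N).filter (fun p => touches p.1 = k),
        MvPolynomial.C (f (prof p)) * wt q t p := by
  classical
  set T : Finset (Multiset (ℚ × Fin N)) :=
    ((LRP m n N).filter (fun p => touches p.1 = k)).image prof with hT
  have hsub : ∀ p ∈ (LRD m n N).filter (fun p => touches p.1 = k), prof p ∈ T := by
    intro p hp
    rw [mem_filter] at hp
    exact mem_image_of_mem _ (mem_filter.2 ⟨(mem_filter.1 hp.1).1, hp.2⟩)
  have hsub' : ∀ p ∈ (LRP m n N).filter (fun p => touches p.1 = k), prof p ∈ T :=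
    fun p hp => mem_image_of_mem _ hp
  rw [← sum_fiberwise_of_maps_to hsub, ← sum_fiberwise_of_maps_to hsub', Finset.mul_sum,
    Finset.mul_sum]
  refine sum_congr rfl fun M hM => ?_
  obtain ⟨p0, hp0, rfl⟩ := mem_image.1 hM
  have hk : (prof p0).countP (fun z => z.1 = 0) = k := by
    rw [← touches_prof]; exact (mem_filter.1 hp0).2
  have e1 : ∀ s : Finset ((Fin n → Fin m) × (Fin n → Fin N)),
      (s.filter (fun p => touches p.1 = k)).filter (fun p => prof p = prof p0) =
        s.filter (fun p => prof p = prof p0) := by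
    intro s
    ext p
    rw [mem_filter, mem_filter, mem_filter]
    constructor
    · rintro ⟨⟨h1, _⟩, h3⟩
      exact ⟨h1, h3⟩
    · rintro ⟨h1, h3⟩
      refine ⟨⟨h1, ?_⟩, h3⟩
      rw [touches_prof, h3, hk]
  rw [e1, e1]
  have := fiber_identity (m := m) (n := n) q t hq f (prof p0)
  rw [hk] at this
  exact this

/-- The generating function of all labelled rectangular paths in terms of the Dyck paths. -/
theorem main (q t : K) (hq : q ≠ 0) (hk : ∀ k : ℕ, 1 ≤ k → qint q k ≠ 0)
    (f : Multiset (ℚ × Fin N) → K) :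
    ∑ p ∈ LRP m n N, MvPolynomial.C (f (prof p)) * wt q t p =
      ∑ k ∈ Icc 1 (Nat.gcd m n), MvPolynomial.C (qint q m / qint q k) *
        ∑ p ∈ (LRD m n N).filter (fun p => touches p.1 = k),
          MvPolynomial.C (f (prof p)) * wt q t p := by
  classical
  have hmap : ∀ p ∈ LRP m n N, touches p.1 ∈ Icc 1 (Nat.gcd m n) := by
    intro p _
    rw [mem_Icc]
    exact ⟨touches_pos p.1, touches_le_gcd p.1⟩
  rw [← sum_fiberwise_of_maps_to hmap]
  refine sum_congr rfl fun k hk' => ?_
  have h0 := hk k (mem_Icc.1 hk').1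
  have h1 := touch_identity (m := m) (n := n) q t hq f k
  have h2 : MvPolynomial.C (qint q m / qint q k) * MvPolynomial.C (qint q k) =
      (MvPolynomial.C (qint q m) : MvPolynomial (Fin N) K) := by
    rw [← map_mul, div_mul_cancel₀ _ h0]
  have h3 : (MvPolynomial.C (qint q k)⁻¹ : MvPolynomial (Fin N) K) *
      MvPolynomial.C (qint q k) = 1 := by
    rw [← map_mul, inv_mul_cancel₀ h0, map_one]
  have h4 : (MvPolynomial.C (qint q m / qint q k) : MvPolynomial (Fin N) K) =
      MvPolynomial.C (qint q k)⁻¹ * MvPolynomial.C (qint q m) := by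
    rw [← map_mul, div_eq_inv_mul]
  rw [h4, mul_assoc, ← h1, ← mul_assoc, h3, one_mul]

end Pool.Agent.Lib.MP_0e7911_co_rect
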