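import Pool.Agent.Lib.MP_0e7911_co_h50.Total
import Pool.Agent.Lib.MP_0e7911_co_h43.Conv
import Pool.Agent.Lib.MP_0e7911_co_h56.DinvEq

/-!
# The refined identity over a field in which the symmetry factors do not vanish
-/

set_option autoImplicit false

namespace Pool.Agent.Lib.MP_0e7911_co_rect

open Finset Pool.Agent.Lib.MP_0e7911_co_h50

theorem refined_aux {K : Type*} [Field K] {b e a N : ℕ} (ha : 0 < a)
    (hcop : Nat.Coprime a (b + 1)) (q : K) (hq : q ≠ 0) (hq1 : q ≠ 1)
    (hPhi : ∀ G : Fin (e + 1) → Key N,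
      (∑ g : Equiv.Perm (Fin (e + 1)), if G ∘ g = G then q ^ inv g else 0) ≠ 0)
    [NeZero ((e + 1) * (b + 1))]
    (M : Multiset (ℚ × Fin N)) :
    (q ^ (M.countP (fun z => z.1 = 0)) - 1) *
      ∑ p ∈ (LRP ((e + 1) * a) ((e + 1) * (b + 1)) N).filter (fun p => prof p = M),
        q ^ dinv p.1 p.2 =
    (q ^ ((e + 1) * a) - 1) *
      ∑ p ∈ (LRD ((e + 1) * a) ((e + 1) * (b + 1)) N).filter (fun p => prof p = M),
        q ^ dinv p.1 p.2 := by
  classical
  by_cases h : ∃ p0 ∈ LRP ((e + 1) * a) ((e + 1) * (b + 1)) N, prof p0 = M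
  · obtain ⟨p0, hp0, hM⟩ := h
    obtain ⟨S0, hS0, -⟩ := exists_base p0.1
    have hm : 0 < (e + 1) * a := by positivity
    set M0 := Multiset.map (fun i => (lam ((e + 1) * a) (fun i => (p0.1 i : ℕ)) i + (S0 : ℤ),
      p0.2 i)) univ.val with hM0
    have hprof : ∀ (p : (Fin ((e + 1) * (b + 1)) → Fin ((e + 1) * a)) ×
        (Fin ((e + 1) * (b + 1)) → Fin N)) (S : ℤ), IsBase ((e + 1) * a) (fun i => (p.1 i : ℕ)) S →
        (prof p = M ↔ Multiset.map (fun i => (lam ((e + 1) * a) (fun i => (p.1 i : ℕ)) i + S,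
          p.2 i)) univ.val = M0) := by
      intro p S hS
      rw [← hM]
      exact prof_eq_iff p.1 p0.1 p.2 p0.2 S S0 hS hS0
    have hcount : M.countP (fun z => z.1 = 0) = M0.countP (fun z => z.1 = 0) := by
      rw [← hM, ← touches_prof, touches_eq p0.1 S0 hS0, hM0, Multiset.countP_map,
        ← Finset.filter_val, Finset.card_val]
    obtain ⟨L0, hL0⟩ := total q hq hq1 hPhi ha hcop (fun i => (p0.1 i : ℕ)) p0.2 (S0 : ℤ)
      ((mem_LRP p0).1 hp0).1 hS0 M0 hM0
    have hL := hL0 (max L0 ((e + 1) * (b + 1) * ((e + 1) * a) + 1)) (le_max_left _ _)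
    rw [hcount]
    -- the left side
    have hleft : ∑ p ∈ (LRP ((e + 1) * a) ((e + 1) * (b + 1)) N).filter (fun p => prof p = M),
        q ^ dinv p.1 p.2 =
        ∑ S ∈ range (max L0 ((e + 1) * (b + 1) * ((e + 1) * a) + 1)), USum q b e a M0 (S : ℤ) := by
      have e1 : (LRP ((e + 1) * a) ((e + 1) * (b + 1)) N).filter (fun p => prof p = M) =
          univ.filter (fun p => p ∈ LRP ((e + 1) * a) ((e + 1) * (b + 1)) N ∧ prof p = M) := by
        ext p
        simp only [mem_filter, mem_univ, true_and]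
      unfold USum
      rw [e1, Finset.sum_filter, Finset.sum_comm]
      refine Finset.sum_congr rfl fun p _ => ?_
      obtain ⟨S1, hS1, hS1le⟩ := exists_base p.1
      by_cases hp : p ∈ LRP ((e + 1) * a) ((e + 1) * (b + 1)) N ∧ prof p = M
      · rw [if_pos hp, Finset.sum_eq_single_of_mem S1]
        · rw [if_pos ⟨(mem_LRP p).1 hp.1, hS1, (hprof p S1 hS1).1 hp.2⟩, dinv_eq hm]
        · rw [mem_range]
          exact lt_of_lt_of_le (Nat.lt_succ_of_le hS1le) (le_max_right _ _)
        · intro S _ hne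
          rw [if_neg]
          rintro ⟨_, hS, _⟩
          apply hne
          have := base_unique _ _ _ hS hS1
          exact_mod_cast this
      · rw [if_neg hp]
        symm
        refine Finset.sum_eq_zero fun S _ => ?_
        rw [if_neg]
        rintro ⟨h1, hS, h2⟩
        exact hp ⟨(mem_LRP p).2 h1, (hprof p S hS).2 h2⟩
    have hright : ∑ p ∈ (LRD ((e + 1) * a) ((e + 1) * (b + 1)) N).filter (fun p => prof p = M),
        q ^ dinv p.1 p.2 = USum q b e a M0 0 := by
      have e1 : (LRD ((e + 1) * a) ((e + 1) * (b + 1)) N).filter (fun p => prof p = M) =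
          univ.filter (fun p => (p ∈ LRP ((e + 1) * a) ((e + 1) * (b + 1)) N ∧ IsDyck p.1) ∧
            prof p = M) := by
        ext p
        unfold LRD
        simp only [mem_filter, mem_univ, true_and]
      unfold USum
      rw [e1, Finset.sum_filter]
      refine Finset.sum_congr rfl fun p _ => ?_
      by_cases hp : (p ∈ LRP ((e + 1) * a) ((e + 1) * (b + 1)) N ∧ IsDyck p.1) ∧ prof p = M
      · have hb := (isDyck_iff p.1).1 hp.1.2
        rw [if_pos hp, if_pos ⟨(mem_LRP p).1 hp.1.1, hb, (hprof p 0 hb).1 hp.2⟩, dinv_eq hm]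
      · rw [if_neg hp, if_neg]
        rintro ⟨h1, hS, h2⟩
        exact hp ⟨⟨(mem_LRP p).2 h1, (isDyck_iff p.1).2 hS⟩, (hprof p 0 hS).2 h2⟩
    rw [hleft, hright]
    exact hL
  · push Not at h
    have h1 : (LRP ((e + 1) * a) ((e + 1) * (b + 1)) N).filter (fun p => prof p = M) = ∅ :=
      Finset.filter_false_of_mem h
    have h2 : (LRD ((e + 1) * a) ((e + 1) * (b + 1)) N).filter (fun p => prof p = M) = ∅ :=
      Finset.filter_false_of_mem (fun p hp => h p (Finset.mem_of_mem_filter p hp))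
    rw [h1, h2, Finset.sum_empty, mul_zero, mul_zero]

end Pool.Agent.Lib.MP_0e7911_co_rect
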