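import Pool.Agent.Lib.MP_0e7911_co_rect.Refined

/-!
# From a transcendental `q` to every nonzero `q`
-/

set_option autoImplicit false

namespace Pool.Agent.Lib.MP_0e7911_co_rect

open Finset Pool.Agent.Lib.MP_0e7911_co_h50 Polynomial

theorem refined_gen {K : Type*} [Field K] {m n N : ℕ} [NeZero m] [NeZero n] (q : K) (hq : q ≠ 0)
    (hq1 : q ≠ 1)
    (hPhi : ∀ (e : ℕ) (G : Fin (e + 1) → Key N),
      (∑ g : Equiv.Perm (Fin (e + 1)), if G ∘ g = G then q ^ inv g else 0) ≠ 0)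
    (M : Multiset (ℚ × Fin N)) :
    (q ^ (M.countP (fun z => z.1 = 0)) - 1) *
      ∑ p ∈ (LRP m n N).filter (fun p => prof p = M), q ^ dinv p.1 p.2 =
    (q ^ m - 1) * ∑ p ∈ (LRD m n N).filter (fun p => prof p = M), q ^ dinv p.1 p.2 := by
  have hm : 0 < m := Nat.pos_of_ne_zero (NeZero.ne m)
  have hn : 0 < n := Nat.pos_of_ne_zero (NeZero.ne n)
  obtain ⟨e, he⟩ : ∃ e, Nat.gcd m n = e + 1 :=
    ⟨Nat.gcd m n - 1, by have := Nat.gcd_pos_of_pos_left n hm; omega⟩
  obtain ⟨a, ha⟩ : ∃ a, m = (e + 1) * a := by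
    rw [← he]; exact Nat.gcd_dvd_left m n
  obtain ⟨b', hb'⟩ : ∃ b', n = (e + 1) * b' := by
    rw [← he]; exact Nat.gcd_dvd_right m n
  have ha0 : 0 < a := by
    rcases Nat.eq_zero_or_pos a with h | h
    · rw [h, mul_zero] at ha; omega
    · exact h
  obtain ⟨b, rfl⟩ : ∃ b, b' = b + 1 := by
    rcases Nat.eq_zero_or_pos b' with h | h
    · rw [h, mul_zero] at hb'; omega
    · exact ⟨b' - 1, by omega⟩
  have hcop : Nat.Coprime a (b + 1) := by
    rw [ha, hb', Nat.gcd_mul_left] at he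
    have : Nat.gcd a (b + 1) = 1 := by
      have h1 : (e + 1) * Nat.gcd a (b + 1) = (e + 1) * 1 := by rw [he, mul_one]
      exact Nat.eq_of_mul_eq_mul_left (Nat.succ_pos e) h1
    exact this
  subst ha hb'
  exact refined_aux ha0 hcop q hq hq1 (hPhi e) M

/-- the symmetry factors at a transcendental `z` -/
theorem phi_ne_zero {L : Type*} [Field L] (φ : ℤ[X] →+* L) (hφ : Function.Injective φ)
    {N : ℕ} (e : ℕ) (G : Fin (e + 1) → Key N) :
    (∑ g : Equiv.Perm (Fin (e + 1)), if G ∘ g = G then (φ X) ^ inv g else 0) ≠ 0 := by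
  intro h
  have h1 : φ (∑ g : Equiv.Perm (Fin (e + 1)), if G ∘ g = G then (X : ℤ[X]) ^ inv g else 0) =
      φ 0 := by
    rw [map_sum, map_zero, ← h]
    refine sum_congr rfl fun g _ => ?_
    split_ifs
    · rw [map_pow]
    · rw [map_zero]
  have h2 := hφ h1
  have h3 := congrArg (Polynomial.eval 1) h2
  rw [Polynomial.eval_finset_sum, Polynomial.eval_zero] at h3
  have h4 : ∀ g : Equiv.Perm (Fin (e + 1)),
      Polynomial.eval 1 (if G ∘ g = G then (X : ℤ[X]) ^ inv g else 0) =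
        if G ∘ g = G then (1 : ℤ) else 0 := by
    intro g
    split_ifs <;> simp
  rw [sum_congr rfl fun g _ => h4 g, ← Finset.sum_filter, Finset.sum_const, nsmul_eq_mul,
    mul_one] at h3
  have h5 : (univ.filter (fun g : Equiv.Perm (Fin (e + 1)) => G ∘ g = G)).card = 0 := by
    exact_mod_cast h3
  rw [card_eq_zero, filter_eq_empty_iff] at h5
  exact h5 (mem_univ 1) (by simp)

theorem transfer {ι : Type*} (A B : Finset ι) (d : ι → ℤ) (k m : ℕ)
    {L : Type*} [Field L] (φ : ℤ[X] →+* L) (hφ : Function.Injective φ)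
    (h : ((φ X) ^ k - 1) * ∑ p ∈ A, (φ X) ^ d p = ((φ X) ^ m - 1) * ∑ p ∈ B, (φ X) ^ d p)
    {K : Type*} [Field K] (q : K) (hq : q ≠ 0) :
    qint q k * ∑ p ∈ A, q ^ d p = qint q m * ∑ p ∈ B, q ^ d p := by
  classical
  set C : ℕ := ∑ p ∈ A ∪ B, (d p).natAbs with hC
  have hCd : ∀ p ∈ A ∪ B, 0 ≤ (C : ℤ) + d p := by
    intro p hp
    have : (d p).natAbs ≤ C := single_le_sum (f := fun p => (d p).natAbs)
      (fun _ _ => Nat.zero_le _) hp
    omega
  set D : ι → ℕ := fun p => ((C : ℤ) + d p).toNat with hD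
  have hDp : ∀ p ∈ A ∪ B, ((D p : ℕ) : ℤ) = C + d p := fun p hp => Int.toNat_of_nonneg (hCd p hp)
  have hX : φ X ≠ 0 := by
    intro h0
    exact X_ne_zero (hφ (h0.trans (map_zero φ).symm))
  -- powers
  have hpow : ∀ p ∈ A ∪ B, (φ X) ^ D p = (φ X) ^ C * (φ X) ^ d p := by
    intro p hp
    rw [← zpow_natCast (φ X) (D p), hDp p hp, zpow_add₀ hX, zpow_natCast]
  have hpow' : ∀ p ∈ A ∪ B, q ^ D p = q ^ C * q ^ d p := by
    intro p hp
    rw [← zpow_natCast q (D p), hDp p hp, zpow_add₀ hq, zpow_natCast]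
  -- polynomial identity over the integers
  have key : (∑ i ∈ range k, (X : ℤ[X]) ^ i) * ∑ p ∈ A, (X : ℤ[X]) ^ D p =
      (∑ i ∈ range m, (X : ℤ[X]) ^ i) * ∑ p ∈ B, (X : ℤ[X]) ^ D p := by
    have hX1 : (X : ℤ[X]) - 1 ≠ 0 := by
      intro h0
      have := congrArg (Polynomial.eval 0) h0
      simp at this
    apply mul_left_cancel₀ hX1
    have g1 := mul_geom_sum (X : ℤ[X]) k
    have g2 := mul_geom_sum (X : ℤ[X]) m
    rw [← mul_assoc, g1, ← mul_assoc, g2]
    apply hφ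
    rw [map_mul, map_mul, map_sub, map_sub, map_pow, map_pow, map_one, map_sum, map_sum]
    have e1 : ∑ p ∈ A, φ (X ^ D p) = (φ X) ^ C * ∑ p ∈ A, (φ X) ^ d p := by
      rw [Finset.mul_sum]
      refine sum_congr rfl fun p hp => ?_
      rw [map_pow, hpow p (mem_union_left _ hp)]
    have e2 : ∑ p ∈ B, φ (X ^ D p) = (φ X) ^ C * ∑ p ∈ B, (φ X) ^ d p := by
      rw [Finset.mul_sum]
      refine sum_congr rfl fun p hp => ?_
      rw [map_pow, hpow p (mem_union_right _ hp)]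
    rw [e1, e2]
    linear_combination ((φ X) ^ C) * h
  have key2 := congrArg (Polynomial.eval₂ (Int.castRingHom K) q) key
  simp only [Polynomial.eval₂_mul, Polynomial.eval₂_finset_sum, Polynomial.eval₂_pow,
    Polynomial.eval₂_X] at key2
  have e1 : ∑ p ∈ A, q ^ D p = q ^ C * ∑ p ∈ A, q ^ d p := by
    rw [Finset.mul_sum]
    exact sum_congr rfl fun p hp => hpow' p (mem_union_left _ hp)
  have e2 : ∑ p ∈ B, q ^ D p = q ^ C * ∑ p ∈ B, q ^ d p := by
    rw [Finset.mul_sum]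
    exact sum_congr rfl fun p hp => hpow' p (mem_union_right _ hp)
  rw [e1, e2] at key2
  unfold qint
  apply mul_left_cancel₀ (pow_ne_zero C hq)
  linear_combination key2

theorem exists_field : ∃ (L : Type) (_ : Field L) (φ : ℤ[X] →+* L), Function.Injective φ :=
  ⟨FractionRing ℤ[X], inferInstance, algebraMap _ _, IsFractionRing.injective _ _⟩

theorem refined_aux2 {m n N : ℕ} [NeZero m] [NeZero n] {K : Type*} [Field K] (q : K) (hq : q ≠ 0)
    (M : Multiset (ℚ × Fin N)) {L : Type} [Field L] (φ : ℤ[X] →+* L)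
    (hφ : Function.Injective φ) :
    qint q (M.countP (fun z => z.1 = 0)) *
      ∑ p ∈ (LRP m n N).filter (fun p => prof p = M), q ^ dinv p.1 p.2 =
    qint q m * ∑ p ∈ (LRD m n N).filter (fun p => prof p = M), q ^ dinv p.1 p.2 := by
  have hX : φ X ≠ 0 := by
    intro h0
    exact X_ne_zero (hφ (h0.trans (map_zero φ).symm))
  have hX1 : φ X ≠ 1 := by
    intro h0
    have h2 : (X : ℤ[X]) = 1 := hφ (h0.trans (map_one φ).symm)
    have h3 := congrArg (Polynomial.eval 0) h2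
    rw [Polynomial.eval_X, Polynomial.eval_one] at h3
    exact zero_ne_one h3
  have h := refined_gen (m := m) (n := n) (φ X) hX hX1 (fun e G => phi_ne_zero φ hφ e G) M
  have h1 := @transfer _ ((LRP m n N).filter (fun p => prof p = M))
    ((LRD m n N).filter (fun p => prof p = M)) (fun p => dinv p.1 p.2)
    (M.countP (fun z => z.1 = 0)) m L _ φ hφ
  exact @h1 h K _ q hq

/-- The refined identity for every nonzero `q` in a field. -/
theorem refined {m n N : ℕ} [NeZero m] [NeZero n] {K : Type*} [Field K] (q : K) (hq : q ≠ 0)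
    (M : Multiset (ℚ × Fin N)) :
    qint q (M.countP (fun z => z.1 = 0)) *
      ∑ p ∈ (LRP m n N).filter (fun p => prof p = M), q ^ dinv p.1 p.2 =
    qint q m * ∑ p ∈ (LRD m n N).filter (fun p => prof p = M), q ^ dinv p.1 p.2 := by
  obtain ⟨L, hL, φ, hφ⟩ := exists_field
  exact refined_aux2 q hq M φ hφ

end Pool.Agent.Lib.MP_0e7911_co_rect
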